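import Pool.Agent.U847.FH

/-!
# The parity of the number of `i < k` with `Ω(n + i) ∈ A`, for EVERY set `A` and EVERY `k`

Let `A` be an arbitrary set of possible values of `Ω`, of density `α` at the scale `N` (the proportion of the `n ≤ N`
with `Ω(n) ∈ A`). Under the independence asked for in Q1 the number of the `i < k` with `Ω(n + i) ∈ A` is binomially
distributed, in particular it is even for about `(1 + (1 - 2 α)^k) N / 2` of the `n ≤ N`. We prove, for all scales `N`
outside a set of logarithmic density zero, for EVERY set `A` and EVERY `k ≥ 2` (and along progressions of any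
difference `d ≥ 1` instead of consecutive integers):

* both parities have a proportion at least `α (1 - α) - ε`; the lower bound does not depend on `k`;
* the proportions for the lengths `k` and `k + 2` differ by at most `1/6 + α (1 - α) + ε`, and their sum differs from `1`
  by at most `1 - (7/3) α (1 - α) + ε`;
* the same bounds hold in the mean for the proportions in windows of bounded length `H`, up to `O(1/H)`; the mean square
  of the bias in windows is at most `1 - (8/3) α (1 - α) + 3 k / H + ε`.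

The starting results bound such means by `1 - c(k)` only. The independence of `Ω(n + u) ∈ A` and `Ω(n + w) ∈ A` for
`u ≠ w` at almost all scales is `Pool.Agent.R509.PQ.twoP` (starting files).
-/

set_option autoImplicit false

open Finset Filter

namespace Pool.Agent.Results.MP_e0aac0_nt.ParityEveryLength

open ArithmeticFunction (cardFactors)

open Classical in
/-- `E` has logarithmic density zero -/
def LogDensityZero (E : Set ℕ) : Prop := Tendsto
  (fun X : ℕ => (∑ n ∈ Icc 1 X, if n ∈ E then (1 : ℝ) / n else 0) / Real.log X) atTop (nhds 0)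

open Classical in
/-- the density of `A` at the scale `N`: the proportion of the `1 ≤ n ≤ N` with `Ω(n) ∈ A` -/
noncomputable def dens (A : Set ℕ) (N : ℕ) : ℝ := (((Icc 1 N).filter (fun n => cardFactors n ∈ A)).card : ℝ) / N

open Classical in
/-- the number of the `i < k` with `Ω(n + i d) ∈ A` -/
noncomputable def count (A : Set ℕ) (d k n : ℕ) : ℕ := ((range k).filter (fun i => cardFactors (n + i * d) ∈ A)).card

open Classical in
/-- the proportion of the `1 ≤ n ≤ N` for which `count A d k n` is even -/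
noncomputable def even (A : Set ℕ) (d k N : ℕ) : ℝ := (((Icc 1 N).filter (fun n => Even (count A d k n))).card : ℝ) / N

open Classical in
/-- the proportion of the `m = n, n + d, ..., n + (H - 1) d` for which `count A d k m` is even -/
noncomputable def evenW (A : Set ℕ) (d k H n : ℕ) : ℝ :=
  (((range H).filter (fun h => Even (count A d k (n + h * d)))).card : ℝ) / H

open Pool.Agent.U847.FG
open Pool.Agent.U847.NL (cls T)
open Pool.Agent.U847.FA (P P_pm V T_V)
open Pool.Agent.R509.PQ (dn dn_nn dn_le TP twoP icc_range ff)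

lemma dens_eq (A : Set ℕ) (N : ℕ) : dens A N = dn A N := by
  classical
  unfold dens dn
  congr 1
  rw [← sum_boole, icc_range]
  rfl

lemma mean_eq (A : Set ℕ) (d k H : ℕ) (hH : 1 ≤ H) (N : ℕ) :
    ∑ n ∈ Icc 1 N, |2 * evenW A d k H n - 1| = T (cls 1 0) (fun n => |V (xx A) d k H n|) N / H := by
  have hH0 : (0 : ℝ) < H := by exact_mod_cast hH
  rw [icc_range, T1, sum_div]
  apply sum_congr rfl
  intro n _
  rw [← evW_eq A d k H n hH, abs_mul, abs_of_pos hH0, mul_div_assoc, div_self hH0.ne', mul_one]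
  rfl

lemma sq_eq (A : Set ℕ) (d k H : ℕ) (hH : 1 ≤ H) (N : ℕ) :
    ∑ n ∈ Icc 1 N, (2 * evenW A d k H n - 1) ^ 2 = T (cls 1 0) (fun n => V (xx A) d k H n ^ 2) N / H ^ 2 := by
  have hH0 : (0 : ℝ) < H := by exact_mod_cast hH
  rw [icc_range, T1, sum_div]
  apply sum_congr rfl
  intro n _
  rw [← evW_eq A d k H n hH, mul_pow, mul_div_assoc, div_self (by positivity), mul_one]
  rfl

lemma pair_eq (A : Set ℕ) (d k H : ℕ) (hH : 1 ≤ H) (τ : ℝ) (N : ℕ) :
    ∑ n ∈ Icc 1 N, |(2 * evenW A d k H n - 1) + τ * (2 * evenW A d (k + 2) H n - 1)| =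
      T (cls 1 0) (fun n => |V (xx A) d k H n + τ * V (xx A) d (k + 2) H n|) N / H := by
  have hH0 : (0 : ℝ) < H := by exact_mod_cast hH
  rw [icc_range, T1, sum_div]
  apply sum_congr rfl
  intro n _
  rw [← evW_eq A d k H n hH, ← evW_eq A d (k + 2) H n hH]
  have e : (2 * evW A d k H (n + 1) - 1) * H + τ * ((2 * evW A d (k + 2) H (n + 1) - 1) * H) =
      ((2 * evW A d k H (n + 1) - 1) + τ * (2 * evW A d (k + 2) H (n + 1) - 1)) * H := by ring
  rw [e, abs_mul, abs_of_pos hH0, mul_div_assoc, div_self hH0.ne', mul_one]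
  rfl

/-- the windows -/
lemma windows {A E : Set ℕ} (hE : TP A E) (k d H : ℕ) (hk : 2 ≤ k) (hd : 1 ≤ d) (hH : 1 ≤ H) (ε : ℝ) (hε : 0 < ε) :
    ∃ N₀ : ℕ, ∀ N : ℕ, N₀ ≤ N → N ∉ E → ∀ α : ℝ, α = dens A N →
      ∑ n ∈ Icc 1 N, |2 * evenW A d k H n - 1| ≤ (1 - 2 * (α * (1 - α)) + 1 / H + ε) * N ∧
      ∑ n ∈ Icc 1 N, (2 * evenW A d k H n - 1) ^ 2 ≤ (1 - 8 / 3 * (α * (1 - α)) + 3 * k / H + ε) * N ∧
      ∑ n ∈ Icc 1 N, |evenW A d k H n - evenW A d (k + 2) H n| ≤ (1 / 6 + α * (1 - α) + 2 / H + ε) * N ∧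
      ∑ n ∈ Icc 1 N, |evenW A d k H n + evenW A d (k + 2) H n - 1| ≤
        (1 - 7 / 3 * (α * (1 - α)) + 2 / H + ε) * N := by
  have hH0 : (0 : ℝ) < H := by exact_mod_cast hH
  obtain ⟨N₀, h⟩ := two_om hE ((3 * H + k + 3) * d) ε hε
  refine ⟨N₀, fun N hN hNE α hα => ?_⟩
  have h1 := h N hN hNE
  rw [← dens_eq, ← hα] at h1
  set μ : ℝ := (1 - 2 * α) ^ 2 with hμ
  have hμ0 : 0 ≤ μ := sq_nonneg _
  have hN0 : (0 : ℝ) ≤ N := Nat.cast_nonneg N
  have hB0 : 0 ≤ ε * N := by positivity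
  have hv : ∀ n, 0 ≤ cls 1 0 n := Pool.Agent.U847.FA.cls_nonneg 1 0
  obtain ⟨m1, m2⟩ := moments_mu (xx_pm A) (cls 1 0) hv k d H ((3 * H + k + 3) * d) hk hd hH
    (Nat.mul_le_mul_right d (by omega)) N μ (ε * N) hμ0 hB0 h1
  have hT : T (cls 1 0) (fun _ => 1) N = N := by rw [T1]; simp
  rw [hT] at m1 m2
  have hp : ∀ τ : ℝ, (τ = 1 ∨ τ = -1) → T (cls 1 0) (fun n => |V (xx A) d k H n + τ * V (xx A) d (k + 2) H n|) N ≤
      ((5 / 6 + (2 + 5 * τ) / 6 * μ) * H + 4) * N + 2 * H * (ε * N) := by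
    intro τ hτ
    have := pair_mu (xx_pm A) (cls 1 0) hv d k H ((3 * H + k + 3) * d) hk hd (Nat.mul_le_mul_right d (by omega)) N μ
      (ε * N) h1 τ hτ
    rwa [hT] at this
  refine ⟨?_, ?_, ?_, ?_⟩
  · rw [mean_eq A d k H hH, div_le_iff₀ hH0]
    refine m1.trans (le_of_eq ?_)
    rw [hμ]
    field_simp
    ring
  · rw [sq_eq A d k H hH, div_le_iff₀ (by positivity)]
    refine m2.trans (le_of_eq ?_)
    rw [hμ]
    field_simp
    ring
  · have h2 := hp (-1) (Or.inr rfl)
    have h3 : ∑ n ∈ Icc 1 N, |evenW A d k H n - evenW A d (k + 2) H n| =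
        (∑ n ∈ Icc 1 N, |(2 * evenW A d k H n - 1) + (-1) * (2 * evenW A d (k + 2) H n - 1)|) / 2 := by
      rw [sum_div]
      apply sum_congr rfl
      intro n _
      rw [show (2 * evenW A d k H n - 1) + (-1) * (2 * evenW A d (k + 2) H n - 1) =
        2 * (evenW A d k H n - evenW A d (k + 2) H n) by ring, abs_mul, abs_two]
      ring
    rw [h3, pair_eq A d k H hH, div_div, div_le_iff₀ (by positivity)]
    refine h2.trans (le_of_eq ?_)
    rw [hμ]
    field_simp
    ring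
  · have h2 := hp 1 (Or.inl rfl)
    have h3 : ∑ n ∈ Icc 1 N, |evenW A d k H n + evenW A d (k + 2) H n - 1| =
        (∑ n ∈ Icc 1 N, |(2 * evenW A d k H n - 1) + 1 * (2 * evenW A d (k + 2) H n - 1)|) / 2 := by
      rw [sum_div]
      apply sum_congr rfl
      intro n _
      rw [show (2 * evenW A d k H n - 1) + 1 * (2 * evenW A d (k + 2) H n - 1) =
        2 * (evenW A d k H n + evenW A d (k + 2) H n - 1) by ring, abs_mul, abs_two]
      ring
    rw [h3, pair_eq A d k H hH, div_div, div_le_iff₀ (by positivity)]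
    refine h2.trans (le_of_eq ?_)
    rw [hμ]
    field_simp
    ring

lemma even_mean (A : Set ℕ) (d k H : ℕ) (hH : 1 ≤ H) (N : ℕ) (hN : 1 ≤ N) :
    |(2 * even A d k N - 1) * N - ∑ n ∈ Icc 1 N, (2 * evenW A d k H n - 1)| ≤ 2 * (H * d) := by
  have hH0 : (0 : ℝ) < H := by exact_mod_cast hH
  have h1 : (2 * even A d k N - 1) * N = T (cls 1 0) (P (xx A) d k) N := ev_eq A d k N hN
  have h2 : ∑ n ∈ Icc 1 N, (2 * evenW A d k H n - 1) = T (cls 1 0) (V (xx A) d k H) N / H := by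
    rw [icc_range, T1, sum_div]
    apply sum_congr rfl
    intro n _
    rw [← evW_eq A d k H n hH, mul_div_assoc, div_self hH0.ne', mul_one]
    rfl
  have h3 := T_V (xx_pm A) (one_dvd d) 0 k H N
  rw [h1, h2, abs_sub_comm]
  have h4 : T (cls 1 0) (V (xx A) d k H) N / H - T (cls 1 0) (P (xx A) d k) N =
      (T (cls 1 0) (V (xx A) d k H) N - H * T (cls 1 0) (P (xx A) d k) N) / H := by
    field_simp
  rw [h4, abs_div, abs_of_pos hH0, div_le_iff₀ hH0]
  refine h3.trans (le_of_eq ?_)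
  ring

/-- To every set `A ⊆ ℕ` one can assign a set `E A` of scales, of logarithmic density zero, such that for all `k ≥ 2`,
`d ≥ 1` and `ε > 0` and all large `N` outside `E A`, with `α = dens A N`:
(1) `α (1 - α) - ε ≤ even A d k N ≤ 1 - α (1 - α) + ε`;
(2) `|even A d k N - even A d (k + 2) N| ≤ 1/6 + α (1 - α) + ε` and
`|even A d k N + even A d (k + 2) N - 1| ≤ 1 - (7/3) α (1 - α) + ε`;
(3) (windows) for every `H ≥ 1` and all large `N` outside `E A` the means over `1 ≤ n ≤ N` of `|2 evenW - 1|`,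
`(2 evenW - 1)^2`, `|evenW_k - evenW_(k+2)|` and `|evenW_k + evenW_(k+2) - 1|` are at most
`1 - 2 α (1 - α) + 1/H + ε`, `1 - (8/3) α (1 - α) + 3 k / H + ε`, `1/6 + α (1 - α) + 2/H + ε` and
`1 - (7/3) α (1 - α) + 2/H + ε`. -/
theorem result : ∃ E : Set ℕ → Set ℕ, (∀ A, LogDensityZero (E A)) ∧
    ∀ (A : Set ℕ) (k d : ℕ), 2 ≤ k → 1 ≤ d → ∀ ε : ℝ, 0 < ε →
      (∃ N₀ : ℕ, ∀ N : ℕ, N₀ ≤ N → N ∉ E A →
        (dens A N * (1 - dens A N) - ε ≤ even A d k N ∧ even A d k N ≤ 1 - dens A N * (1 - dens A N) + ε) ∧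
        |even A d k N - even A d (k + 2) N| ≤ 1 / 6 + dens A N * (1 - dens A N) + ε ∧
        |even A d k N + even A d (k + 2) N - 1| ≤ 1 - 7 / 3 * (dens A N * (1 - dens A N)) + ε) ∧
      ∀ H : ℕ, 1 ≤ H → ∃ N₀ : ℕ, ∀ N : ℕ, N₀ ≤ N → N ∉ E A →
        ∑ n ∈ Icc 1 N, |2 * evenW A d k H n - 1| ≤ (1 - 2 * (dens A N * (1 - dens A N)) + 1 / H + ε) * N ∧
        ∑ n ∈ Icc 1 N, (2 * evenW A d k H n - 1) ^ 2 ≤
          (1 - 8 / 3 * (dens A N * (1 - dens A N)) + 3 * k / H + ε) * N ∧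
        ∑ n ∈ Icc 1 N, |evenW A d k H n - evenW A d (k + 2) H n| ≤
          (1 / 6 + dens A N * (1 - dens A N) + 2 / H + ε) * N ∧
        ∑ n ∈ Icc 1 N, |evenW A d k H n + evenW A d (k + 2) H n - 1| ≤
          (1 - 7 / 3 * (dens A N * (1 - dens A N)) + 2 / H + ε) * N := by
  choose E hE hTP using twoP
  refine ⟨E, hE, fun A k d hk hd ε hε => ⟨?_, fun H hH => ?_⟩⟩
  · obtain ⟨H, hH⟩ := exists_nat_ge (8 / ε)
    have hHpos : (0 : ℝ) < H := by
      have : 0 < 8 / ε := by positivity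
      linarith
    have hH1 : 1 ≤ H := by exact_mod_cast hHpos
    have hHε : 2 / (H : ℝ) ≤ ε / 4 := by
      rw [div_le_iff₀ hε] at hH
      rw [div_le_iff₀ hHpos]
      linarith
    have hHε' : 1 / (H : ℝ) ≤ ε / 4 := by
      refine le_trans ?_ hHε
      exact div_le_div_of_nonneg_right (by norm_num) hHpos.le
    obtain ⟨N₀, h⟩ := windows (hTP A) k d H hk hd hH1 (ε / 4) (by positivity)
    obtain ⟨M, hM⟩ := exists_nat_ge (8 * (H * d) / ε)
    refine ⟨N₀ + M + 1, fun N hN hNE => ?_⟩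
    obtain ⟨w1, -, w3, w4⟩ := h N (by omega) hNE _ rfl
    have hN0 : (0 : ℝ) < N := by exact_mod_cast (by omega : 0 < N)
    have hNM : 8 * (H * d) / ε ≤ N := hM.trans (by exact_mod_cast (by omega : M ≤ N))
    rw [div_le_iff₀ hε] at hNM
    set β : ℝ := dens A N * (1 - dens A N) with hβ
    have g1 := even_mean A d k H hH1 N (by omega)
    have g2 := even_mean A d (k + 2) H hH1 N (by omega)
    have g1' := abs_le.1 g1
    have g2' := abs_le.1 g2
    have a1 : |∑ n ∈ Icc 1 N, (2 * evenW A d k H n - 1)| ≤ ∑ n ∈ Icc 1 N, |2 * evenW A d k H n - 1| :=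
      abs_sum_le_sum_abs _ _
    have a3 : |∑ n ∈ Icc 1 N, (evenW A d k H n - evenW A d (k + 2) H n)| ≤
        ∑ n ∈ Icc 1 N, |evenW A d k H n - evenW A d (k + 2) H n| := abs_sum_le_sum_abs _ _
    have a4 : |∑ n ∈ Icc 1 N, (evenW A d k H n + evenW A d (k + 2) H n - 1)| ≤
        ∑ n ∈ Icc 1 N, |evenW A d k H n + evenW A d (k + 2) H n - 1| := abs_sum_le_sum_abs _ _
    have s3 : ∑ n ∈ Icc 1 N, (evenW A d k H n - evenW A d (k + 2) H n) =
        (∑ n ∈ Icc 1 N, (2 * evenW A d k H n - 1) - ∑ n ∈ Icc 1 N, (2 * evenW A d (k + 2) H n - 1)) / 2 := by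
      rw [← sum_sub_distrib, sum_div]
      apply sum_congr rfl
      intro n _
      ring
    have s4 : ∑ n ∈ Icc 1 N, (evenW A d k H n + evenW A d (k + 2) H n - 1) =
        (∑ n ∈ Icc 1 N, (2 * evenW A d k H n - 1) + ∑ n ∈ Icc 1 N, (2 * evenW A d (k + 2) H n - 1)) / 2 := by
      rw [← sum_add_distrib, sum_div]
      apply sum_congr rfl
      intro n _
      ring
    rw [s3] at a3
    rw [s4] at a4
    have b1 := abs_le.1 (a1.trans w1)
    have b3 := abs_le.1 (a3.trans w3)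
    have b4 := abs_le.1 (a4.trans w4)
    have c1 : 1 / (H : ℝ) * N ≤ ε / 4 * N := mul_le_mul_of_nonneg_right hHε' hN0.le
    have c2 : 2 / (H : ℝ) * N ≤ ε / 4 * N := mul_le_mul_of_nonneg_right hHε hN0.le
    have key : ∀ x y : ℝ, x * N ≤ y * N → x ≤ y := fun x y hxy => le_of_mul_le_mul_right hxy hN0
    refine ⟨⟨?_, ?_⟩, ?_, ?_⟩
    · apply key
      linarith [b1.1, g1'.1]
    · apply key
      linarith [b1.2, g1'.2]
    · rw [abs_le]
      constructor
      · apply key
        linarith [b3.1, g1'.1, g2'.2]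
      · apply key
        linarith [b3.2, g1'.2, g2'.1]
    · rw [abs_le]
      constructor
      · apply key
        linarith [b4.1, g1'.1, g2'.1]
      · apply key
        linarith [b4.2, g1'.2, g2'.2]
  · obtain ⟨N₀, h⟩ := windows (hTP A) k d H hk hd hH ε hε
    exact ⟨N₀, fun N hN hNE => h N hN hNE _ rfl⟩

end Pool.Agent.Results.MP_e0aac0_nt.ParityEveryLength
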