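import Pool.Agent.U108.OI.B

set_option autoImplicit false

/-!
# Independence of the values of `Ω` for all the shifts near almost all vectors of values of polynomials in several variables
# at integers with restricted digits

The statement of Q1 of MP_e0aac0_nt with the shifts `0, 1, ..., k` replaced by `0, h_1, ..., h_k`, for ALL the vectors `h` with
`|h_i - F_i(u_i)| ≤ (log N) ^ κ`, for all but a proportion `(log N) ^ (-κ)` of the vectors `(u_1, ..., u_k)`, `u_i ∈ A_i`, with a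
rate, and with arbitrary side information. Here the `F_i` are arbitrary polynomials with integer coefficients of degrees
`d_i ≥ 2`, in any numbers of variables, and `A_i` is any part of positive proportion of a box of points whose coordinates
have their digits (in base `b_i`) in arbitrary sets of at least two digits, depending on the place and the coordinate, such
that `log N ≤ F_i ≤ B N` on `A_i`. So the shifts come from very sparse sets: the boxes may have less than `N ^ ε` points.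

Definitions used:
* from `Pool.Agent.TH872.GQ` (starting files): `S b E k`: the integers `0 ≤ n < b ^ k` whose `i`-th digit in base `b` lies
  in `E i`, for all `i < k`;
* from `Pool.Agent.U108.DP`: `Bo b k D`: the tuples `n` of natural numbers with `n j ∈ S b (D j) k` for all `j`;
  `val F n`: the value of the polynomial `F` at the tuple `n`.

Proof: the energy theorem `Pool.Agent.U108.DP.poly_energy` (a multilinear inequality of Weyl type for disjoint windows of
digits shows that the values have, up to a constant factor, the least possible additive energy of some order), and the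
theorem of the starting files on families of shifts of bounded energy (`Pool.Agent.TH445.OI.indF`).
-/

namespace Pool.Agent.Results.MP_e0aac0_nt.PolynomialsRestrictedDigits

open Finset
open ArithmeticFunction (cardFactors)
open Pool.Agent.U108.DP (Bo val)

/-- The polynomial `F` at the points of the part `A` of a digit box: for every variable `j` and `i < k` the set `D j i` consists
of at least two digits in base `b`; `F` has degree at most `d` and some coefficient of degree `d` which is not zero and at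
most `B` in absolute value; `N ≤ B b ^ (d k)`; `A` contains at least the share `1 / B` of the box `Bo b k D`; and
`log N ≤ F ≤ B N` on `A`. -/
structure Normal (b d B N : ℕ) {J : Type} [Fintype J] [DecidableEq J] (k : ℕ) (D : J → ℕ → Finset ℕ)
    (F : MvPolynomial J ℤ) (A : Finset (J → ℕ)) : Prop where
  digits : ∀ j, ∀ i < k, D j i ⊆ range b ∧ 2 ≤ (D j i).card
  degree : F.totalDegree ≤ d
  top : ∃ m : J →₀ ℕ, m.degree = d ∧ F.coeff m ≠ 0 ∧ |F.coeff m| ≤ B
  length : N ≤ B * b ^ (d * k)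
  part : A ⊆ Bo b k D ∧ (Bo b k D).card ≤ B * A.card
  values : ∀ n ∈ A, Real.log N ≤ (val F n : ℝ) ∧ (val F n : ℝ) ≤ B * N

/-- The mean over all `(r_1, ..., r_k)` in `[N]^k` of `g (Ω(r_1), ..., Ω(r_k))`. -/
noncomputable def mean (N k : ℕ) (g : (Fin k → ℕ) → ℂ) : ℂ :=
  (∑ r ∈ Fintype.piFinset (fun _ : Fin k => Icc 1 N), g (fun i => cardFactors (r i))) / (N : ℂ) ^ k

/-- The rate `log log log N / √(log log N)`. -/
noncomputable def rate (N : ℕ) : ℝ := Real.log (Real.log (Real.log N)) / √(Real.log (Real.log N))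

/-- The sum over `ℓ` of Q1 (tuples of positive integers `ℓ i + 1`), with shifts `h i`; Q1 is the case `h i = i`. -/
noncomputable def q1sum (N : ℕ) {K : ℕ} (h : Fin K → ℕ) : ℝ :=
  ∑' ℓ : Fin K → ℕ, |(1 / (N : ℝ)) * (((Icc 1 N).filter (fun n => ∀ i, cardFactors (n + h i) = ℓ i + 1)).card : ℝ) -
    ∏ i : Fin K, ((1 / (N : ℝ)) * (((Icc 1 N).filter (fun n => cardFactors n = ℓ i + 1)).card : ℝ))|

/-- The vector `h` is near the vector of the values `F i (u i)`. -/
def Near {k : ℕ} (W : ℝ) {J : Fin k → Type} (F : ∀ i, MvPolynomial (J i) ℤ) (u : ∀ i, J i → ℕ) (h : Fin k → ℕ) : Prop :=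
  ∀ i, |(h i : ℝ) - (val (F i) (u i) : ℝ)| ≤ W

/-- the main theorem -/
theorem main (j k : ℕ) (b d : Fin k → ℕ) (hb : ∀ i, 2 ≤ b i) (hd : ∀ i, 2 ≤ d i) (B : ℕ) :
    ∃ κ : ℝ, 0 < κ ∧ ∃ C : ℝ, 0 < C ∧ ∃ N₀ : ℕ,
    ∀ N : ℕ, N₀ ≤ N → ∀ f : ℕ → ℕ, (∀ n, (f n : ℝ) ≤ Real.log N ^ κ) → ∀ t : Fin j → ℕ, (∀ i, t i ≤ B * N) →
    ∀ (J : Fin k → Type) [∀ i, Fintype (J i)] [∀ i, DecidableEq (J i)] (K : Fin k → ℕ) (D : ∀ i, J i → ℕ → Finset ℕ)
      (F : ∀ i, MvPolynomial (J i) ℤ) (A : ∀ i, Finset (J i → ℕ)), (∀ i, Normal (b i) (d i) B N (K i) (D i) (F i) (A i)) →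
    ∃ E ⊆ Fintype.piFinset A, (E.card : ℝ) ≤ (∏ i, ((A i).card : ℝ)) * Real.log N ^ (-κ) ∧
      ∀ u ∈ Fintype.piFinset A, u ∉ E → ∀ h : Fin k → ℕ, Near (Real.log N ^ κ) F u h →
      ∀ a : ℕ → (Fin j → ℕ) → (Fin k → ℕ) → ℂ, (∀ c u l, ‖a c u l‖ ≤ 1) →
      ‖(1 / (N : ℂ)) * ∑ n ∈ Icc 1 N, a (f n) (fun i => cardFactors (n + t i)) (fun i => cardFactors (n + h i)) -
        (1 / (N : ℂ)) * ∑ n ∈ Icc 1 N, mean N k (a (f n) (fun i => cardFactors (n + t i)))‖ ≤ C * rate N := by
  obtain ⟨κ, hκ, C, hC, N₀, h⟩ := Pool.Agent.U108.OI.oi_poly j k b d hb hd B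
  refine ⟨κ, hκ, C, hC, N₀ + 1, fun N hN f hf t ht J _ _ K D F A hA => ?_⟩
  have hN0 : (0 : ℝ) < N := by exact_mod_cast (by omega : 0 < N)
  obtain ⟨E, hE1, hE2, hE3⟩ := h N (by omega) f hf t ht J K D F A
    (fun i => ⟨(hA i).digits, (hA i).degree, (hA i).top, (hA i).length, (hA i).part, (hA i).values⟩)
  refine ⟨E, hE1, hE2, fun u hu huE h' hh a ha => ?_⟩
  have h3 := hE3 u hu huE h' hh a ha
  rw [← mul_sub, norm_mul, norm_div, norm_one, Complex.norm_natCast, one_div, inv_mul_le_iff₀ hN0]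
  refine h3.trans (le_of_eq ?_)
  have e : Pool.Agent.TH445.OI.rr N = rate N := rfl
  rw [e]
  ring

/-- **Independence of the values of `Ω` at all the shifts near the values of polynomials at integers with restricted digits.**
Let `j`, `k`, bases `b_i ≥ 2`, degrees `d_i ≥ 2` and `B` be fixed. There are `κ, C > 0` such that for all large `N` and ALL
polynomials `F_i` in any numbers of variables, digit sets `D_i` and parts `A_i` with `Normal (b i) (d i) B N (K i) (D i) (F i) (A i)`: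
(1) Side information: a label `f n` with at most `(log N) ^ κ` values, and the values of `Ω` at `n + t_1, ..., n + t_j`,
`t_i ≤ B N` (for example `n, n + 1, ..., n + j - 1`). For all the vectors `u`, `u_i ∈ A_i`, apart from a proportion at
most `(log N) ^ (-κ)`, and ALL vectors `h` with `|h_i - F_i(u_i)| ≤ (log N) ^ κ`: the values `Ω(n + h_1), ..., Ω(n + h_k)` are
jointly independent, independent of the side information, and distributed as the values of `Ω` on `[N]`, up to
`C log log log N / √(log log N)` in total variation.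
(2) For all the vectors `u` apart from a proportion at most `(log N) ^ (-κ)` and ALL vectors `h` with
`|h_i - F_i(u_i)| ≤ (log N) ^ κ` the sum of Q1 for the shifts `0, h_1, ..., h_k` is at most
`C log log log N / √(log log N)`. -/
theorem result (j k : ℕ) (b d : Fin k → ℕ) (hb : ∀ i, 2 ≤ b i) (hd : ∀ i, 2 ≤ d i) (B : ℕ) :
    (∃ κ : ℝ, 0 < κ ∧ ∃ C : ℝ, 0 < C ∧ ∃ N₀ : ℕ,
      ∀ N : ℕ, N₀ ≤ N → ∀ f : ℕ → ℕ, (∀ n, (f n : ℝ) ≤ Real.log N ^ κ) → ∀ t : Fin j → ℕ, (∀ i, t i ≤ B * N) →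
      ∀ (J : Fin k → Type) [∀ i, Fintype (J i)] [∀ i, DecidableEq (J i)] (K : Fin k → ℕ) (D : ∀ i, J i → ℕ → Finset ℕ)
        (F : ∀ i, MvPolynomial (J i) ℤ) (A : ∀ i, Finset (J i → ℕ)), (∀ i, Normal (b i) (d i) B N (K i) (D i) (F i) (A i)) →
      ∃ E ⊆ Fintype.piFinset A, (E.card : ℝ) ≤ (∏ i, ((A i).card : ℝ)) * Real.log N ^ (-κ) ∧
        ∀ u ∈ Fintype.piFinset A, u ∉ E → ∀ h : Fin k → ℕ, Near (Real.log N ^ κ) F u h →
        ∀ a : ℕ → (Fin j → ℕ) → (Fin k → ℕ) → ℂ, (∀ c u l, ‖a c u l‖ ≤ 1) →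
        ‖(1 / (N : ℂ)) * ∑ n ∈ Icc 1 N, a (f n) (fun i => cardFactors (n + t i)) (fun i => cardFactors (n + h i)) -
          (1 / (N : ℂ)) * ∑ n ∈ Icc 1 N, mean N k (a (f n) (fun i => cardFactors (n + t i)))‖ ≤ C * rate N) ∧
    (∃ κ : ℝ, 0 < κ ∧ ∃ C : ℝ, 0 < C ∧ ∃ N₀ : ℕ, ∀ N : ℕ, N₀ ≤ N →
      ∀ (J : Fin k → Type) [∀ i, Fintype (J i)] [∀ i, DecidableEq (J i)] (K : Fin k → ℕ) (D : ∀ i, J i → ℕ → Finset ℕ)
        (F : ∀ i, MvPolynomial (J i) ℤ) (A : ∀ i, Finset (J i → ℕ)), (∀ i, Normal (b i) (d i) B N (K i) (D i) (F i) (A i)) →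
      ∃ E ⊆ Fintype.piFinset A, (E.card : ℝ) ≤ (∏ i, ((A i).card : ℝ)) * Real.log N ^ (-κ) ∧
        ∀ u ∈ Fintype.piFinset A, u ∉ E → ∀ h : Fin k → ℕ, Near (Real.log N ^ κ) F u h →
          q1sum N (Fin.cons 0 h : Fin (k + 1) → ℕ) ≤ C * rate N) := by
  refine ⟨main j k b d hb hd B, ?_⟩
  obtain ⟨κ, hκ, C, hC, N₀, h⟩ := main 1 k b d hb hd B
  refine ⟨κ, hκ, C, hC, max N₀ 1, fun N hN J _ _ K D F A hA => ?_⟩
  have hN1 : 1 ≤ N := (le_max_right _ _).trans hN
  have hN0 : (N : ℂ) ≠ 0 := by exact_mod_cast (by omega : N ≠ 0)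
  have hr : 0 ≤ Real.log N := Real.log_nonneg (by exact_mod_cast hN1)
  obtain ⟨E, hE1, hE2, hE3⟩ := h N ((le_max_left _ _).trans hN) (fun _ => 0) (fun n => by
    simp only [Nat.cast_zero]; exact Real.rpow_nonneg hr _) (fun _ => 0) (fun _ => Nat.zero_le _) J K D F A hA
  refine ⟨E, hE1, hE2, fun u hu huE m hm => ?_⟩
  have hrate : 0 ≤ C * rate N := (norm_nonneg _).trans (hE3 u hu huE m hm (fun _ _ _ => 0) (by intro c u l; simp))
  unfold q1sum
  apply Pool.Agent.TH445.OI.tv_form N (k + 1) (fun n i => cardFactors (n + (Fin.cons 0 m : Fin (k + 1) → ℕ) i)) (C * rate N) hrate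
  intro a ha
  have h1 := hE3 u hu huE m hm (fun _ u l => a (Fin.cons (u 0) l : Fin (k + 1) → ℕ)) (fun _ _ _ => ha _)
  have e1 : ∀ n : ℕ, (fun i => cardFactors (n + (Fin.cons 0 m : Fin (k + 1) → ℕ) i)) =
      (Fin.cons (cardFactors (n + 0)) (fun i => cardFactors (n + m i)) : Fin (k + 1) → ℕ) := by
    intro n
    funext i
    refine Fin.cases ?_ (fun i' => ?_) i
    · simp
    · simp
  have e2 : (1 / (N : ℂ)) * ∑ n ∈ Icc 1 N, mean N k (fun l => a (Fin.cons (cardFactors (n + 0)) l : Fin (k + 1) → ℕ)) =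
      Pool.Agent.TH445.OI.av N (k + 1) a := by
    rw [Pool.Agent.TH445.OI.av_succ, one_div, div_eq_inv_mul]
    rfl
  simp only [e1]
  rw [← e2]
  exact h1

end Pool.Agent.Results.MP_e0aac0_nt.PolynomialsRestrictedDigits
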