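import Mathlib
import Pool.Agent.U496.PS.Roots
import Pool.Agent.R512.Q.FinE

/-!
# Pushdown machines make a positive proportion of errors on all functions of `Ω(n)` which are not nearly constant

If the values of `Ω` at consecutive integers are asymptotically independent (Q1), then no rule which sees finitely many
of the preceding values of `F(Ω(n))` does better than the most frequent value of `F(Ω(n))`. Here `F` is arbitrary with
finitely many values, and the rule is a deterministic pushdown machine (finitely many states, an unbounded stack, silent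
moves), which sees all the preceding values. It errs at a positive rate, uniformly in `F`.

Proof. (1) `U496.PS.transfer`: for every pushdown machine there are a distance `ρ` and a constant `K` such that every
sequence over `B` letters on which the machine makes `E` errors has at most `K (E + |s₀| + 1)` changes at the distance
`ρ`, also with the weights `1 / n`. (2) By the starting library `R512.Q` the function `β(Ω(n))`, with the `m`-th roots of
unity `β(l) = ζ^F(l)`, is not nearly equal to its translate by `ρ` if the mean of `β(Ω(n))` is not near `1` in absolute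
value. (3) This is the case if no value of `F(Ω(n))` is too frequent (`mean_of_freq`). If `F (l + j) ≠ F l` for all `l`,
this holds, as is seen from the map `n ↦ 2^j n` (`freq_dilate`).
-/

set_option autoImplicit false

namespace Pool.Agent.Results.MP_e0aac0_nt.PushdownFunctionsOfOmega

open Finset
open Pool.Agent.U364.PD (Machine errors)
open Pool.Agent.U496.PS (logErrors lcard)

/-- `Ω(n)`, the number of prime factors counted with multiplicity -/
def Om (n : ℕ) : ℕ := ArithmeticFunction.cardFactors n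

/-- no value of `F(Ω(n))`, `n ≤ N`, is taken more than `(1 - δ) N` times -/
def Spread (F : ℕ → ℕ) (δ : ℝ) (N : ℕ) : Prop :=
  ∀ v : ℕ, (((Icc 1 N).filter fun n => F (Om n) = v).card : ℝ) ≤ (1 - δ) * N

open Classical in
/-- logarithmic density zero -/
def LogDensityZero (E : Set ℕ) : Prop := Filter.Tendsto
  (fun X : ℕ => (∑ n ∈ Icc 1 X, if n ∈ E then (1 : ℝ) / n else 0) / Real.log X) Filter.atTop (nhds 0)

open Classical in
/-- **The bound at the scale `N`**: for all sequences `a` of integers in `[0, B)`, all maps `φ`, all initial states and all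
initial stacks `s₀`, the number of the `n ∈ [1, N]` with `φ (a n) ≠ F (Ω n)`, plus the number of the errors of `M` on
`a 1, …, a N`, plus `|s₀|`, is at least `c N` -/
def Bound {Q Γ : Type} (M : Machine Q Γ) (B : ℕ) (F : ℕ → ℕ) (c : ℝ) (N : ℕ) : Prop :=
  ∀ a : ℕ → ℤ, (∀ n, 0 ≤ a n ∧ a n < B) → ∀ (φ : ℤ → ℕ) (q₀ : Q) (s₀ : List Γ),
    c * N ≤ ((range N).filter fun n => φ (a (n + 1)) ≠ F (Om (n + 1))).card + errors M a q₀ s₀ N + s₀.length

open Classical in
/-- the same with the weights `1 / n` -/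
def LogBound {Q Γ : Type} (M : Machine Q Γ) (B : ℕ) (F : ℕ → ℕ) (c : ℝ) (N : ℕ) : Prop :=
  ∀ a : ℕ → ℤ, (∀ n, 0 ≤ a n ∧ a n < B) → ∀ (φ : ℤ → ℕ) (q₀ : Q) (s₀ : List Γ),
    c * Real.log N ≤ (∑ n ∈ (range N).filter (fun n => φ (a (n + 1)) ≠ F (Om (n + 1))), 1 / ((n : ℝ) + 1)) +
      logErrors M a q₀ s₀ N + s₀.length

lemma lz_bdd (E : Set ℕ) (n₀ : ℕ) (h : ∀ n ∈ E, n ≤ n₀) : LogDensityZero E := by
  classical
  unfold LogDensityZero
  refine squeeze_zero' (g := fun X : ℕ => (n₀ : ℝ) / Real.log X) ?_ ?_ ?_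
  · filter_upwards [Filter.eventually_ge_atTop 1] with X hX
    apply div_nonneg
    · exact sum_nonneg fun n _ => by split_ifs <;> positivity
    · exact Real.log_nonneg (by exact_mod_cast hX)
  · filter_upwards [Filter.eventually_ge_atTop 1] with X hX
    apply div_le_div_of_nonneg_right _ (Real.log_nonneg (by exact_mod_cast hX))
    calc ∑ n ∈ Icc 1 X, (if n ∈ E then (1 : ℝ) / n else 0) ≤ ∑ n ∈ Icc 1 X, (if n ∈ Icc 1 n₀ then (1 : ℝ) else 0) := by
          refine sum_le_sum fun n hn => ?_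
          have hn1 : (1 : ℝ) ≤ n := by exact_mod_cast (mem_Icc.1 hn).1
          by_cases hE : n ∈ E
          · rw [if_pos hE, if_pos (mem_Icc.2 ⟨(mem_Icc.1 hn).1, h n hE⟩), div_le_one (by linarith)]
            exact hn1
          · rw [if_neg hE]
            split_ifs <;> norm_num
      _ = (((Icc 1 X).filter fun n => n ∈ Icc 1 n₀).card : ℝ) := by
          rw [card_filter]
          push_cast
          rfl
      _ ≤ n₀ := by
          have h1 : ((Icc 1 X).filter fun n => n ∈ Icc 1 n₀).card ≤ (Icc 1 n₀).card :=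
            card_le_card fun n hn => (mem_filter.1 hn).2
          rw [Nat.card_Icc] at h1
          exact_mod_cast (by omega : ((Icc 1 X).filter fun n => n ∈ Icc 1 n₀).card ≤ n₀)
  · exact Filter.Tendsto.div_atTop tendsto_const_nhds (Real.tendsto_log_atTop.comp tendsto_natCast_atTop_atTop)

lemma lz_mono {E E' : Set ℕ} (h : E ⊆ E') (hE : LogDensityZero E') : LogDensityZero E := by
  classical
  unfold LogDensityZero at hE ⊢
  refine squeeze_zero' ?_ ?_ hE
  · filter_upwards [Filter.eventually_ge_atTop 1] with X hX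
    apply div_nonneg
    · exact sum_nonneg fun n _ => by split_ifs <;> positivity
    · exact Real.log_nonneg (by exact_mod_cast hX)
  · filter_upwards [Filter.eventually_ge_atTop 1] with X hX
    apply div_le_div_of_nonneg_right _ (Real.log_nonneg (by exact_mod_cast hX))
    refine sum_le_sum fun n _ => ?_
    by_cases h1 : n ∈ E
    · rw [if_pos h1, if_pos (h h1)]
    · rw [if_neg h1]
      split_ifs <;> positivity

lemma lz_union {E E' : Set ℕ} (hE : LogDensityZero E) (hE' : LogDensityZero E') : LogDensityZero (E ∪ E') := by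
  classical
  unfold LogDensityZero at hE hE' ⊢
  have hadd := hE.add hE'
  rw [add_zero] at hadd
  refine squeeze_zero' ?_ ?_ hadd
  · filter_upwards [Filter.eventually_ge_atTop 1] with X hX
    apply div_nonneg
    · exact sum_nonneg fun n _ => by split_ifs <;> positivity
    · exact Real.log_nonneg (by exact_mod_cast hX)
  · filter_upwards [Filter.eventually_ge_atTop 1] with X hX
    rw [← add_div, ← sum_add_distrib]
    apply div_le_div_of_nonneg_right _ (Real.log_nonneg (by exact_mod_cast hX))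
    refine sum_le_sum fun n _ => ?_
    have hn0 : (0 : ℝ) ≤ 1 / (n : ℝ) := by positivity
    by_cases h1 : n ∈ E <;> by_cases h2 : n ∈ E' <;> simp [h1, h2]

lemma sig_sum (n : ℕ) : (Pool.Agent.R512.Q.sig n).sum = ArithmeticFunction.cardFactors n := by
  rw [ArithmeticFunction.cardFactors_eq_sum_factorization]
  rfl

/-- the input: the number of the changes of `F(Ω(n))` at the distance `ρ` -/
lemma changes (m ρ : ℕ) (hm : 1 ≤ m) (hρ : 1 ≤ ρ) (δ : ℝ) (hδ : 0 < δ) : ∃ c : ℝ, 0 < c ∧
    ∀ F : ℕ → ℕ, (∀ l, F l < m) →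
    (∃ E : Set ℕ, LogDensityZero E ∧ ∀ N : ℕ, N ∉ E → Spread F δ N →
      c * N ≤ ((range N).filter fun n => F (Om (n + 1 + ρ)) ≠ F (Om (n + 1))).card) ∧
    (LogDensityZero {N | ¬ Spread F δ N} → ∃ N₀ : ℕ, ∀ N : ℕ, N₀ ≤ N →
      c * Real.log N ≤ lcard ((range N).filter fun n => F (Om (n + 1 + ρ)) ≠ F (Om (n + 1)))) := by
  classical
  obtain ⟨ζ, κ, hζm, hζ1, hκ, hκ1, hre⟩ := Pool.Agent.U496.PS.exists_root m hm
  set δ₁ : ℝ := κ * min δ 1 / 2 with hδ₁
  have hmin : 0 < min δ 1 := lt_min hδ one_pos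
  have hδ₁0 : 0 < δ₁ := by positivity
  obtain ⟨c, hc0, hc1, hmain⟩ := Pool.Agent.R512.Q.finE 2 m hm δ₁ hδ₁0
  refine ⟨c / 2, by positivity, fun F hF => ?_⟩
  set β : ℕ → ℂ := fun l => ζ ^ F l with hβ
  have hβm : ∀ l, β l ^ m = 1 := by
    intro l
    rw [hβ]
    simp only
    rw [← pow_mul, mul_comm, pow_mul, hζm, one_pow]
  have hinj : Function.Injective (![0, ρ] : Fin 2 → ℕ) := by
    intro i j hij
    fin_cases i <;> fin_cases j
    · rfl
    · simp at hij; omega
    · simp at hij; omega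
    · rfl
  have hOM : Pool.Agent.R512.Q.OM (fun n => if n = 0 then 0 else
      (starRingEnd ℂ) (β (ArithmeticFunction.cardFactors n))) := by
    refine Pool.Agent.R512.Q.OM_congr 0 (fun _ t => (starRingEnd ℂ) (β t.sum)) (fun _ => 1) (fun s t => ?_)
      (fun n _ => by simp) (fun _ _ _ _ _ => by simp) rfl (fun n _ => ?_)
    · rw [RCLike.norm_conj, hβ]
      simp only
      rw [norm_pow, hζ1, one_pow]
    · rw [sig_sum, mul_one]
  obtain ⟨h1, h2⟩ := hmain (![0, ρ] : Fin 2 → ℕ) hinj 0 β hβm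
    (fun _ n => (starRingEnd ℂ) (β (ArithmeticFunction.cardFactors n))) (fun _ _ => hOM)
  have hspread : ∀ N : ℕ, Spread F δ N → ‖Pool.Agent.Y842.QY.mB β N‖ ≤ 1 - δ₁ := by
    intro N hN
    unfold Pool.Agent.Y842.QY.mB
    rcases Nat.eq_zero_or_pos N with h0 | h0
    · rw [h0]
      simp only [Nat.cast_zero, div_zero, norm_zero]
      have : min δ 1 ≤ 1 := min_le_right _ _
      rw [hδ₁]
      nlinarith
    · rw [norm_div, Complex.norm_natCast, div_le_iff₀ (by exact_mod_cast h0)]
      refine Pool.Agent.U496.PS.mean_of_freq m ζ κ hζ1 hκ hκ1 hre (min δ 1) hmin (min_le_right _ _) N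
        (fun n => F (ArithmeticFunction.cardFactors n)) (fun n => hF _) (fun v => ?_)
      refine le_trans ?_ ((hN v).trans (mul_le_mul_of_nonneg_right
        (by linarith [min_le_left δ 1]) (Nat.cast_nonneg N)))
      apply le_of_eq
      congr!
  have herase : (univ : Finset (Fin 2)).erase 0 = {1} := by decide
  have hsum : ∀ n : ℕ, β (ArithmeticFunction.cardFactors (n + (![0, ρ] : Fin 2 → ℕ) 0)) *
      ∏ i ∈ univ.erase (0 : Fin 2), (starRingEnd ℂ) (β (ArithmeticFunction.cardFactors (n + (![0, ρ] : Fin 2 → ℕ) i))) =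
      ζ ^ F (Om n) * (starRingEnd ℂ) (ζ ^ F (Om (n + ρ))) := by
    intro n
    rw [herase, prod_singleton]
    rfl
  constructor
  · obtain ⟨E, hE, h3⟩ := h1
    refine ⟨E, hE, fun N hNE hN => ?_⟩
    have h4 := h3 N hNE (hspread N hN)
    rcases Nat.eq_zero_or_pos N with h0 | h0
    · rw [h0]
      simp
    have h5 : (0 : ℝ) < N := by exact_mod_cast h0
    rw [norm_div, Complex.norm_natCast, div_le_iff₀ h5, sum_congr rfl (fun n _ => hsum n)] at h4
    refine (Pool.Agent.U496.PS.changes_of_root m ζ hζ1 (fun n => F (Om n)) ρ N c h4).trans (le_of_eq ?_)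
    congr!
  · intro hLZ
    have hsub : ∀ N, 1 - δ₁ < ‖Pool.Agent.Y842.QY.mB β N‖ → ¬ Spread F δ N := by
      intro N hN hS
      exact absurd (hspread N hS) (not_le.2 hN)
    have hLZ' : LogDensityZero {N | 1 - δ₁ < ‖Pool.Agent.Y842.QY.mB β N‖} := lz_mono (fun N hN => hsub N hN) hLZ
    obtain ⟨N₀, h3⟩ := h2 hLZ'
    refine ⟨N₀ + 2, fun N hN => ?_⟩
    have h4 := h3 N (by omega)
    have h5 : 0 < Real.log N := Real.log_pos (by exact_mod_cast (by omega : 1 < N))
    have e : ‖((Real.log N : ℝ) : ℂ)‖ = Real.log N := by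
      rw [Complex.norm_real, Real.norm_eq_abs, abs_of_pos h5]
    rw [norm_div, e, div_le_iff₀ h5, sum_congr rfl (fun n _ => by rw [hsum n])] at h4
    refine (Pool.Agent.U496.PS.log_changes_of_root m ζ hζ1 (fun n => F (Om n)) ρ N c h4).trans (le_of_eq ?_)
    congr!

/-- **Pushdown machines and functions of `Ω(n)`.** Let `M` be a deterministic pushdown machine with finitely many states
and stack symbols (silent moves are allowed), and `B`, `m` natural numbers.

(1) For each `δ > 0` there are `c > 0` and `N₁`, depending on `M`, `B`, `m`, `δ` only, such that for all `F : ℕ → ℕ` with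
values below `m` there is a set `E` of logarithmic density zero with `Bound M B F c N` for all `N ≥ N₁` outside `E` for
which no value of `F(Ω(n))`, `n ≤ N`, is taken more than `(1 - δ) N` times; if the set of the `N` for which some value is
taken more than `(1 - δ) N` times has logarithmic density zero, then `LogBound M B F c N` for all large `N`.
(2) For each `j` there is `c > 0`, depending on `M`, `B`, `m`, `j` only, such that for all `F` with values below `m` and
`F (l + j) ≠ F l` for all `l` (for instance `F l = l mod m`, `j = 1`, `m ≥ 2`): `Bound M B F c N` for almost all `N` in the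
sense of logarithmic density, and `LogBound M B F c N` for all large `N`. -/
theorem result {Q Γ : Type} [Finite Q] [Finite Γ] (M : Machine Q Γ) (B m : ℕ) :
    (∀ δ : ℝ, 0 < δ → ∃ (c : ℝ) (N₁ : ℕ), 0 < c ∧ ∀ F : ℕ → ℕ, (∀ l, F l < m) →
      (∃ E : Set ℕ, LogDensityZero E ∧ ∀ N : ℕ, N₁ ≤ N → N ∉ E → Spread F δ N → Bound M B F c N) ∧
      (LogDensityZero {N | ¬ Spread F δ N} → ∃ N₀ : ℕ, ∀ N : ℕ, N₀ ≤ N → LogBound M B F c N)) ∧
    (∀ j : ℕ, ∃ c : ℝ, 0 < c ∧ ∀ F : ℕ → ℕ, (∀ l, F l < m) → (∀ l, F (l + j) ≠ F l) →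
      (∃ E : Set ℕ, LogDensityZero E ∧ ∀ N : ℕ, N ∉ E → Bound M B F c N) ∧
      ∃ N₀ : ℕ, ∀ N : ℕ, N₀ ≤ N → LogBound M B F c N) := by
  classical
  obtain ⟨K, ρ, hρ, hT⟩ := Pool.Agent.U496.PS.transfer M B
  have hK : (0 : ℝ) < (K : ℝ) + 1 := by positivity
  -- from changes to errors
  have fin : ∀ (x T D : ℝ) (b : ℝ), 0 ≤ D → 0 < b → b * x ≤ T → T ≤ K * (D + 1) → 2 * (K + 1) ≤ b * x →
      b / (2 * (K + 1)) * x ≤ D := by
    intro x T D b hD hb h1 h2 h3
    have h4 : b * x ≤ (K + 1) * (D + 1) := by nlinarith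
    rw [div_mul_eq_mul_div, div_le_iff₀ (by positivity)]
    nlinarith
  have hT' : ∀ (F : ℕ → ℕ) (a : ℕ → ℤ), (∀ n, 0 ≤ a n ∧ a n < B) → ∀ (φ : ℤ → ℕ) (q₀ : Q) (s₀ : List Γ) (N : ℕ),
      ((((range N).filter fun n => F (Om (n + 1 + ρ)) ≠ F (Om (n + 1))).card : ℝ) ≤
        K * (((range N).filter fun n => φ (a (n + 1)) ≠ F (Om (n + 1))).card + errors M a q₀ s₀ N + s₀.length + 1)) ∧
      lcard ((range N).filter fun n => F (Om (n + 1 + ρ)) ≠ F (Om (n + 1))) ≤
        K * (lcard ((range N).filter fun n => φ (a (n + 1)) ≠ F (Om (n + 1))) + logErrors M a q₀ s₀ N +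
          s₀.length + 1) := by
    intro F a ha φ q₀ s₀ N
    have h1 := hT a ha (fun x => (φ x : ℤ)) (fun n => (F (Om n) : ℤ)) q₀ s₀ N
    simpa only [ne_eq, Nat.cast_inj] using h1
  have part1 : ∀ δ : ℝ, 0 < δ → ∃ (c : ℝ) (N₁ : ℕ), 0 < c ∧ ∀ F : ℕ → ℕ, (∀ l, F l < m) →
      (∃ E : Set ℕ, LogDensityZero E ∧ ∀ N : ℕ, N₁ ≤ N → N ∉ E → Spread F δ N → Bound M B F c N) ∧
      (LogDensityZero {N | ¬ Spread F δ N} → ∃ N₀ : ℕ, ∀ N : ℕ, N₀ ≤ N → LogBound M B F c N) := by
    intro δ hδ
    rcases Nat.eq_zero_or_pos m with hm | hm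
    · exact ⟨1, 0, one_pos, fun F hF => absurd (hF 0) (by omega)⟩
    obtain ⟨c, hc0, hmain⟩ := changes m ρ hm hρ δ hδ
    obtain ⟨N₁, hN₁⟩ := exists_nat_ge (2 * (K + 1) / c)
    obtain ⟨N₂, hN₂⟩ := exists_nat_ge (Real.exp (2 * (K + 1) / c))
    refine ⟨c / (2 * (K + 1)), N₁, by positivity, fun F hF => ?_⟩
    obtain ⟨h1, h2⟩ := hmain F hF
    constructor
    · obtain ⟨E, hE, h3⟩ := h1
      refine ⟨E, hE, fun N hN hNE hS => ?_⟩
      intro a ha φ q₀ s₀
      obtain ⟨h4, -⟩ := hT' F a ha φ q₀ s₀ N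
      have hx : 2 * ((K : ℝ) + 1) ≤ c * N := by
        have h7 : (N₁ : ℝ) ≤ N := by exact_mod_cast hN
        have h8 := hN₁.trans h7
        rw [div_le_iff₀ (by positivity)] at h8
        linarith
      refine (fin N _ _ c (by positivity) hc0 (h3 N hNE hS) h4 hx).trans (le_of_eq ?_)
      congr!
    · intro hLZ
      obtain ⟨N₀, h3⟩ := h2 hLZ
      refine ⟨N₀ + N₂, fun N hN => ?_⟩
      intro a ha φ q₀ s₀
      obtain ⟨-, h4⟩ := hT' F a ha φ q₀ s₀ N
      have hx : 2 * ((K : ℝ) + 1) ≤ c * Real.log N := by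
        have h7 : (N₂ : ℝ) ≤ N := by exact_mod_cast (by omega : N₂ ≤ N)
        have h8 := hN₂.trans h7
        have h9 := Real.log_le_log (Real.exp_pos _) h8
        rw [Real.log_exp, div_le_iff₀ (by positivity)] at h9
        linarith
      have hL := Pool.Agent.U496.PS.lcard_nonneg ((range N).filter fun n => φ (a (n + 1)) ≠ F (Om (n + 1)))
      have hL2 : 0 ≤ logErrors M a q₀ s₀ N := by
        unfold logErrors
        positivity
      refine (fin (Real.log N) _ _ c (by positivity) hc0 (h3 N (by omega)) h4 hx).trans (le_of_eq ?_)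
      unfold lcard
      congr!
  refine ⟨part1, fun j => ?_⟩
  obtain ⟨c, N₁, hc0, h1⟩ := part1 (1 / 2 ^ (j + 2)) (by positivity)
  refine ⟨c, hc0, fun F hF hj => ?_⟩
  obtain ⟨⟨E, hE, h2⟩, h3⟩ := h1 F hF
  have hS : ∀ N : ℕ, 2 ^ j ≤ N → Spread F (1 / 2 ^ (j + 2)) N := by
    intro N hN v
    exact Pool.Agent.U496.PS.freq_dilate F j hj N hN v
  constructor
  · refine ⟨E ∪ {N | N < N₁ + 2 ^ j}, ?_, fun N hN => ?_⟩
    · exact lz_union hE (lz_bdd {N : ℕ | N < N₁ + 2 ^ j} (N₁ + 2 ^ j) (fun n hn => le_of_lt hn))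
    · rw [Set.mem_union, not_or] at hN
      have h5 : N₁ + 2 ^ j ≤ N := not_lt.1 hN.2
      exact h2 N (le_trans (Nat.le_add_right _ _) h5) hN.1 (hS N (le_trans (Nat.le_add_left _ _) h5))
  · apply h3
    refine lz_bdd _ (2 ^ j) (fun n hn => ?_)
    by_contra h
    exact hn (hS n (by omega))

end Pool.Agent.Results.MP_e0aac0_nt.PushdownFunctionsOfOmega
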