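import Pool.Agent.TH445.OI.A15
import Pool.Agent.U471.RP.OI

set_option autoImplicit false

/-!
# Independence of the values of `Ω` for all the shifts near almost all vectors of values of real polynomials

The statement of Q1 of MP_e0aac0_nt with the shifts `0, 1, ..., k` replaced by `0, h_1, ..., h_k`, for ALL the vectors `h` with
`|h_i - g_i(u_i)| ≤ (log N) ^ κ`, for all but a proportion `(log N) ^ (-κ)` of the vectors `(u_1, ..., u_k)`, `u_i ≤ L_i`, with a
rate, and with arbitrary side information. Here the `g_i` are arbitrary real polynomials of degrees at most `d_i` whose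
coefficient of `t ^ (d_i)` lies between `1 / B` and `B`, with `log N ≤ g_i(m) ≤ B N` for `m = 1, …, L_i`, where
`B (L_i) ^ (d_i) ≥ N`; the other coefficients are arbitrary. The theorem is uniform in the `g_i`.

Proof: an inverse theorem for Weyl sums (`Pool.Agent.H373R2.NB.IW_all`) shows that the integer parts of the values have, up to
a constant factor, the least possible additive energy of some order (`Pool.Agent.U471.RP.energy_real`); the theorem of
the starting files on families of shifts of bounded energy (`Pool.Agent.TH445.OI.indF`) is applied for every vector of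
distances between the `h_i` and the integer parts of the `g_i(u_i)`.
-/

namespace Pool.Agent.Results.MP_e0aac0_nt.RealPolynomialShifts

open Finset Polynomial
open ArithmeticFunction (cardFactors)

/-- The real polynomials `g` of degree at most `d`, with `1 / B ≤ g_d ≤ B` for the coefficient `g_d` of `t ^ d`, and with
`log N ≤ g(m) ≤ B N` for `m = 1, …, L`, where `B L ^ d ≥ N`. -/
structure Normal (d B N L : ℕ) (g : ℝ[X]) : Prop where
  degree : g.natDegree ≤ d
  lower : 1 / (B : ℝ) ≤ g.coeff d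
  upper : g.coeff d ≤ B
  length : N ≤ B * L ^ d
  values : ∀ m ∈ Icc 1 L, Real.log N ≤ g.eval (m : ℝ) ∧ g.eval (m : ℝ) ≤ B * N

/-- The mean over all `(r_1, ..., r_k)` in `[N]^k` of `g (Ω(r_1), ..., Ω(r_k))`. -/
noncomputable def mean (N k : ℕ) (g : (Fin k → ℕ) → ℂ) : ℂ :=
  (∑ r ∈ Fintype.piFinset (fun _ : Fin k => Icc 1 N), g (fun i => cardFactors (r i))) / (N : ℂ) ^ k

/-- The rate `log log log N / √(log log N)`. -/
noncomputable def rate (N : ℕ) : ℝ := Real.log (Real.log (Real.log N)) / √(Real.log (Real.log N))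

/-- The sum over `ℓ` of Q1 (tuples of positive integers `ℓ i + 1`), with shifts `h i`; Q1 is the case `h i = i`. -/
noncomputable def q1sum (N : ℕ) {K : ℕ} (h : Fin K → ℕ) : ℝ :=
  ∑' ℓ : Fin K → ℕ, |(1 / (N : ℝ)) * (((Icc 1 N).filter (fun n => ∀ i, cardFactors (n + h i) = ℓ i + 1)).card : ℝ) -
    ∏ i : Fin K, ((1 / (N : ℝ)) * (((Icc 1 N).filter (fun n => cardFactors n = ℓ i + 1)).card : ℝ))|

/-- The vector `h` is near the vector of the values `g i (u i)`. -/
def Near {k : ℕ} (W : ℝ) (g : Fin k → ℝ[X]) (u h : Fin k → ℕ) : Prop :=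
  ∀ i, |(h i : ℝ) - (g i).eval (u i : ℝ)| ≤ W

/-- the main theorem -/
theorem main (j k : ℕ) (d : Fin k → ℕ) (hd : ∀ i, 1 ≤ d i) (B : ℕ) : ∃ κ : ℝ, 0 < κ ∧ ∃ C : ℝ, 0 < C ∧ ∃ N₀ : ℕ,
    ∀ N : ℕ, N₀ ≤ N → ∀ f : ℕ → ℕ, (∀ n, (f n : ℝ) ≤ Real.log N ^ κ) → ∀ t : Fin j → ℕ, (∀ i, t i ≤ B * N) →
    ∀ (L : Fin k → ℕ) (g : Fin k → ℝ[X]), (∀ i, Normal (d i) B N (L i) (g i)) →
    ∃ E ⊆ Fintype.piFinset (fun i => Icc 1 (L i)), (E.card : ℝ) ≤ (∏ i, (L i : ℝ)) * Real.log N ^ (-κ) ∧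
      ∀ u ∈ Fintype.piFinset (fun i => Icc 1 (L i)), u ∉ E → ∀ h : Fin k → ℕ, Near (Real.log N ^ κ) g u h →
      ∀ a : ℕ → (Fin j → ℕ) → (Fin k → ℕ) → ℂ, (∀ c u l, ‖a c u l‖ ≤ 1) →
      ‖(1 / (N : ℂ)) * ∑ n ∈ Icc 1 N, a (f n) (fun i => cardFactors (n + t i)) (fun i => cardFactors (n + h i)) -
        (1 / (N : ℂ)) * ∑ n ∈ Icc 1 N, mean N k (a (f n) (fun i => cardFactors (n + t i)))‖ ≤ C * rate N := by
  obtain ⟨κ, hκ, C, hC, N₀, h⟩ := Pool.Agent.U471.RP.oi_real j k d hd B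
  refine ⟨κ, hκ, C, hC, N₀ + 1, fun N hN f hf t ht L g hg => ?_⟩
  have hN0 : (0 : ℝ) < N := by exact_mod_cast (by omega : 0 < N)
  obtain ⟨E, hE1, hE2, hE3⟩ := h N (by omega) f hf t ht L g
    (fun i => ⟨(hg i).degree, (hg i).lower, (hg i).upper, (hg i).length, (hg i).values⟩)
  refine ⟨E, hE1, hE2, fun u hu huE h' hh a ha => ?_⟩
  have h3 := hE3 u hu huE h' hh a ha
  rw [← mul_sub, norm_mul, norm_div, norm_one, Complex.norm_natCast, one_div, inv_mul_le_iff₀ hN0]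
  refine h3.trans (le_of_eq ?_)
  have e : Pool.Agent.TH445.OI.rr N = rate N := rfl
  rw [e]
  ring

/-- **Independence of the values of `Ω` at all the shifts near the values of real polynomials.** Let `j`, `k`, `d_i ≥ 1` and
`B` be fixed. There are `κ, C > 0` such that for all large `N`, all `L_i` and ALL real polynomials `g_i` with
`Normal (d i) B N (L i) (g i)`:
(1) Side information: a label `f n` with at most `(log N) ^ κ` values, and the values of `Ω` at `n + t_1, ..., n + t_j`,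
`t_i ≤ B N` (for example `n, n + 1, ..., n + j - 1`). For all the vectors `u`, `1 ≤ u_i ≤ L_i`, apart from a proportion at
most `(log N) ^ (-κ)`, and ALL vectors `h` with `|h_i - g_i(u_i)| ≤ (log N) ^ κ`: the values `Ω(n + h_1), ..., Ω(n + h_k)` are
jointly independent, independent of the side information, and distributed as the values of `Ω` on `[N]`, up to
`C log log log N / √(log log N)` in total variation.
(2) For all the vectors `u` apart from a proportion at most `(log N) ^ (-κ)` and ALL vectors `h` with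
`|h_i - g_i(u_i)| ≤ (log N) ^ κ` the sum of Q1 for the shifts `0, h_1, ..., h_k` is at most
`C log log log N / √(log log N)`. -/
theorem result (j k : ℕ) (d : Fin k → ℕ) (hd : ∀ i, 1 ≤ d i) (B : ℕ) :
    (∃ κ : ℝ, 0 < κ ∧ ∃ C : ℝ, 0 < C ∧ ∃ N₀ : ℕ,
      ∀ N : ℕ, N₀ ≤ N → ∀ f : ℕ → ℕ, (∀ n, (f n : ℝ) ≤ Real.log N ^ κ) → ∀ t : Fin j → ℕ, (∀ i, t i ≤ B * N) →
      ∀ (L : Fin k → ℕ) (g : Fin k → ℝ[X]), (∀ i, Normal (d i) B N (L i) (g i)) →
      ∃ E ⊆ Fintype.piFinset (fun i => Icc 1 (L i)), (E.card : ℝ) ≤ (∏ i, (L i : ℝ)) * Real.log N ^ (-κ) ∧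
        ∀ u ∈ Fintype.piFinset (fun i => Icc 1 (L i)), u ∉ E → ∀ h : Fin k → ℕ, Near (Real.log N ^ κ) g u h →
        ∀ a : ℕ → (Fin j → ℕ) → (Fin k → ℕ) → ℂ, (∀ c u l, ‖a c u l‖ ≤ 1) →
        ‖(1 / (N : ℂ)) * ∑ n ∈ Icc 1 N, a (f n) (fun i => cardFactors (n + t i)) (fun i => cardFactors (n + h i)) -
          (1 / (N : ℂ)) * ∑ n ∈ Icc 1 N, mean N k (a (f n) (fun i => cardFactors (n + t i)))‖ ≤ C * rate N) ∧
    (∃ κ : ℝ, 0 < κ ∧ ∃ C : ℝ, 0 < C ∧ ∃ N₀ : ℕ, ∀ N : ℕ, N₀ ≤ N →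
      ∀ (L : Fin k → ℕ) (g : Fin k → ℝ[X]), (∀ i, Normal (d i) B N (L i) (g i)) →
      ∃ E ⊆ Fintype.piFinset (fun i => Icc 1 (L i)), (E.card : ℝ) ≤ (∏ i, (L i : ℝ)) * Real.log N ^ (-κ) ∧
        ∀ u ∈ Fintype.piFinset (fun i => Icc 1 (L i)), u ∉ E → ∀ h : Fin k → ℕ, Near (Real.log N ^ κ) g u h →
          q1sum N (Fin.cons 0 h : Fin (k + 1) → ℕ) ≤ C * rate N) := by
  refine ⟨main j k d hd B, ?_⟩
  obtain ⟨κ, hκ, C, hC, N₀, h⟩ := main 1 k d hd B
  refine ⟨κ, hκ, C, hC, max N₀ 1, fun N hN L g hg => ?_⟩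
  have hN1 : 1 ≤ N := (le_max_right _ _).trans hN
  have hN0 : (N : ℂ) ≠ 0 := by exact_mod_cast (by omega : N ≠ 0)
  have hr : 0 ≤ Real.log N := Real.log_nonneg (by exact_mod_cast hN1)
  obtain ⟨E, hE1, hE2, hE3⟩ := h N ((le_max_left _ _).trans hN) (fun _ => 0) (fun n => by
    simp only [Nat.cast_zero]; exact Real.rpow_nonneg hr _) (fun _ => 0) (fun _ => Nat.zero_le _) L g hg
  refine ⟨E, hE1, hE2, fun u hu huE m hm => ?_⟩
  have hrate : 0 ≤ C * rate N := (norm_nonneg _).trans (hE3 u hu huE m hm (fun _ _ _ => 0) (by intro c u l; simp))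
  unfold q1sum
  apply Pool.Agent.TH445.OI.tv_form N (k + 1) (fun n i => cardFactors (n + (Fin.cons 0 m : Fin (k + 1) → ℕ) i)) (C * rate N) hrate
  intro a ha
  have h1 := hE3 u hu huE m hm (fun _ u l => a (Fin.cons (u 0) l : Fin (k + 1) → ℕ)) (fun _ _ _ => ha _)
  have e1 : ∀ n : ℕ, (fun i => cardFactors (n + (Fin.cons 0 m : Fin (k + 1) → ℕ) i)) =
      (Fin.cons (cardFactors (n + 0)) (fun i => cardFactors (n + m i)) : Fin (k + 1) → ℕ) := by
    intro n
    funext i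
    refine Fin.cases ?_ (fun i' => ?_) i
    · simp
    · simp
  have e2 : (1 / (N : ℂ)) * ∑ n ∈ Icc 1 N, mean N k (fun l => a (Fin.cons (cardFactors (n + 0)) l : Fin (k + 1) → ℕ)) =
      Pool.Agent.TH445.OI.av N (k + 1) a := by
    rw [Pool.Agent.TH445.OI.av_succ, one_div, div_eq_inv_mul]
    rfl
  simp only [e1]
  rw [← e2]
  exact h1

end Pool.Agent.Results.MP_e0aac0_nt.RealPolynomialShifts
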